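import Pool.Agent.H33.HC.TB

/-!
# Row EAP: the sums over the sets disjoint from the small primes
-/

set_option autoImplicit false

open NumberField Complex Filter Topology MeasureTheory
open Pool.Agent.H33.HC Pool.Agent.H28.RC Pool.Agent.H37.CV Pool.Agent.H33.HH Pool.Agent.H65.CRZ

namespace Pool.Agent.H73.HC

open scoped Classical in
theorem pf_EAP : T_EAP := by
  intro K _ _ P M x R β
  unfold Eb
  apply Finset.sum_congr _ fun S _ => rfl
  ext S
  unfold DS AP
  simp only [Finset.mem_filter, Finset.mem_powerset, Finset.subset_sdiff,
    Finset.disjoint_union_right]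
  tauto

end Pool.Agent.H73.HC
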